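import Pool.Agent.TH954.SLift

/-!
# Liftable sections of curves with a map to a power of an elliptic curve of rank one

Let `E` be an elliptic curve over a number field `K` such that `E(K)` has rank at most one over the
ring of `K`-endomorphisms of `E` and the Tate-Shafarevich group of `E` over `K` is killed by some
`M₀ ≥ 1`, and let `X` be a closed subvariety of `Eⁿ` with only finitely many `K`-rational points, for
instance a curve of genus at least two. Let `F` be the function field of a curve `C` over `K` with a
nonconstant map to `X`, that is, with a point `P ∈ X(F)` which is not in `Eⁿ(K)`. Let `M` be an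
extension of `F` inside the algebraic closure `Ω` of `F`, for instance the function field of the
universal pro-etale cover of `C`, so that `π₁(C) = Gal(M/F)`. Then for every section `s` of the map
from `Gal(M/F)` to the absolute Galois group of `K` which lifts to a section of the map from the
absolute Galois group of `F`, geometric over the completions of `K` at the finite places, there is a
valuation of `F` over `K` with residue field `K` and a prolongation to `M` such that the image of `s`
is contained in its decomposition group.

By the theorem of Koenigsmann every section of the absolute Galois group of `F` is geometric over the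
completions of `K` at the finite places.
-/

open IsDedekindDomain NumberField Pool.Agent.TH954

open scoped Classical in
theorem Pool.Agent.Results.MP_896029_ag.LiftableSections.result
    (K : Type) [Field K] [NumberField K] (E : WeierstrassCurve K)
    (hE : ShortIntegral E) (hO : SmallRank E) (M₀ : ℕ) (hM1 : 1 ≤ M₀) (hM : ShaKilledBy E M₀)
    (n : ℕ) (S : Set (MvPolynomial (Fin n × Fin 3) K)) (hS : ∀ f ∈ S, ∃ d, MultiHom d f)
    (hX : {y : Fin n → E.toAffine.Point | OnX S (fun i => crd (y i))}.Finite)
    (F Ω M B : Type) [Field F] [Field Ω] [Field M] [Field B] [Algebra K F] [Algebra F Ω]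
    [Algebra K Ω] [Algebra F M] [Algebra K M] [Algebra K B] [IsScalarTower K F Ω]
    [IsScalarTower K F M] [IsAlgClosure F Ω] [IsAlgClosure K B]
    (hF : ∃ t : F, Transcendental K t ∧
      Algebra.IsAlgebraic (IntermediateField.adjoin K {t}) F)
    (P : Fin n → (E.baseChange F).toAffine.Point)
    (hPS : OnX S (fun i => crd (P i)))
    (hPn : ∃ i, ∀ y : E.toAffine.Point, P i ≠ locHom (L := F) E y)
    (e : M →ₐ[F] Ω) (s : GalSection K F M B) (t : GalSection K F Ω B) (hl : t.Lifts s e)
    (hloc : ∀ v : HeightOneSpectrum (𝓞 K),
      t.GeometricOver (v.adicCompletion K) (AlgebraicClosure (v.adicCompletion K))) :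
    ∃ O : ValuationSubring F, s.ArisesFrom O :=
  lift_main K E hE hO M₀ hM1 hM n S hS hX F Ω M B hF P hPS hPn e s t hl hloc
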