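import Pool.Agent.W262.G3.Fin2
import Pool.Agent.W623.SecG.Loc2
import Pool.Agent.TH954.SLift
import Pool.Agent.TH213.SEL.Quad

/-!
# Liftable sections for almost all quadratic twists of a hyperelliptic curve

Let `N ≥ 6` be even and let `e_1, …, e_N` be different integers which satisfy the condition
`CrossRatio` below.  For squarefree `d` let `C_d` be the curve `d y² = ∏ (x - e_i)`, of genus
`(N - 2) / 2 ≥ 2`.  For an index `i` and four other indices `L` let `E_{i,L}` be the elliptic curve
`D y² = ∏_{l ∈ L} (x - e_l)`, `D = ∏_{l ∈ L} (e_l - e_i)`.  Suppose that for every `i` there is an `L`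
such that the group `E_{i,L}(ℚ)` is finite and the Tate-Shafarevich group of `E_{i,L}` is killed by a
positive integer.  By the theorem of Kolyvagin it is enough that the `L`-series of `E_{i,L}` does not
vanish at `1`.

We prove: for all squarefree `d`, `|d| ≤ X`, with at most `C X (log X)^(-1/5)` exceptions, every
section of `π₁(U) → G_ℚ`, `U` the curve `C_d` or any (open or complete) curve with a nonconstant map
to `C_d`, which lifts to a section of the absolute Galois group of the function field, geometric over
the completions at the finite places, has its image in the decomposition group of a prolongation of a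
valuation with residue field `ℚ`.  By the theorem of Koenigsmann all sections of the absolute Galois
group of the function field are geometric over the completions.

Proof.  By a theorem of the starting library (helper623, helper262), for almost all `d` every section
has modulo 2 the type of one branch point `P_i = (e_i, 0)`: the functions
`(x - e_l) (x - e_m) (e_i - e_l) (e_i - e_m)`, `l, m ≠ i`, have square roots which are fixed by the
section.  With `L` as above these square roots give a point of `E_{i,L}` over the fixed field of the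
section (for all `d` at once, the curve does not depend on `d`).  By the theory of helper954 the
values of the `x`-coordinate at all the local points of the section are one rational number or `∞`,
so a nonconstant function vanishes at all the local places, and a limit of these places over an
ultrafilter (again the theory of helper954) is a rational place from which the section comes.
-/

set_option autoImplicit false

open IsDedekindDomain NumberField Pool.Agent.W620.SC Pool.Agent.TH954

namespace Pool.Agent.Results.MP_896029_ag.LiftableSectionsOfTwists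

/-- The section `s` is geometric over the completions of `k` at all finite places. -/
def LocallyGeometric {k F Ω B : Type} [Field k] [NumberField k] [Field F] [Field Ω] [Field B]
    [Algebra F Ω] [Algebra k Ω] [Algebra k B] (s : GalSection k F Ω B) : Prop :=
  ∀ v : HeightOneSpectrum (𝓞 k),
    s.GeometricOver (v.adicCompletion k) (AlgebraicClosure (v.adicCompletion k))

/-- Let `F` be an extension of `ℚ` with elements `x`, `y`, `d y² = ∏ (x - e_i)`, where `x` is
transcendental and `F` is algebraic over `ℚ(x)`, that is, the function field of the curve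
`d y² = ∏ (x - e_i)` or of a covering of it, let `Ω` be an algebraic closure of `F` and `M` a field
between `F` and `Ω`.  Every section of `Gal(M/F) → G_ℚ` which lifts to a section of
`Gal(Ω/F) → G_ℚ`, geometric over the completions of `ℚ` at the finite places, arises from a
valuation ring of `F` over `ℚ` with residue field `ℚ`. -/
def LiftableSectionsAreValuative {K : Type} [Fintype K] (e : K → ℤ) (d : ℤ) : Prop :=
  ∀ (F Ω M B : Type) [Field F] [Field Ω] [Field M] [Field B] [Algebra ℚ F] [Algebra F Ω]
    [Algebra ℚ Ω] [Algebra F M] [Algebra ℚ M] [Algebra ℚ B] [IsScalarTower ℚ F Ω]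
    [IsScalarTower ℚ F M] [IsAlgClosure F Ω] [IsAlgClosure ℚ B] (x y : F),
    Transcendental ℚ x → Algebra.IsAlgebraic (IntermediateField.adjoin ℚ {x}) F →
    (d : F) * y ^ 2 = ∏ i, (x - (e i : F)) →
    ∀ (ι : M →ₐ[F] Ω) (s : GalSection ℚ F M B) (t : GalSection ℚ F Ω B), t.Lifts s ι →
      LocallyGeometric t → ∃ O : ValuationSubring F, s.ArisesFrom O

/-- The condition on the branch points: for `i ≠ k` there are `l, l'` different from `i` and `k`, such
that the integer `(e_i - e_l) (e_i - e_l') (e_k - e_l) (e_k - e_l')` is not a square. -/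
def CrossRatio {K : Type} (e : K → ℤ) : Prop :=
  ∀ i k, i ≠ k → ∃ l l', l ≠ i ∧ l ≠ k ∧ l' ≠ i ∧ l' ≠ k ∧
    ¬ IsSquare ((e i - e l) * (e i - e l') * ((e k - e l) * (e k - e l')))

/-- The curve `Y² = (X - r₀) (X - r₁) (X - r₂)`, `r = root e i l`, that is,
`D y² = (x - e_{l 0}) (x - e_{l 1}) (x - e_{l 2}) (x - e_{l 3})` with `D = ∏ (e_{l j} - e_i)`. -/
def quad {K : Type} (e : K → ℤ) (i : K) (l : Fin 4 → K) : WeierstrassCurve ℚ :=
  Pool.Agent.TH942.sw ((Pool.Agent.TH213.SEL.coef e i l).1 : ℚ)
    ((Pool.Agent.TH213.SEL.coef e i l).2 : ℚ)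

/-- The group `E(ℚ)` is finite and the Tate-Shafarevich group is killed by a positive integer. -/
def RankZero (E : WeierstrassCurve ℚ) : Prop :=
  Finite E.toAffine.Point ∧ ∃ M₀ : ℕ, 1 ≤ M₀ ∧ ShaKilledBy E M₀

/-- For every `i` four of the other points give a curve of rank zero. -/
def FourPoints {K : Type} (e : K → ℤ) : Prop :=
  ∀ i, ∃ l : Fin 4 → K, Function.Injective l ∧ (∀ j, l j ≠ i) ∧ RankZero (quad e i l)

theorem sections_valuative {K : Type} [Fintype K] {e : K → ℤ} (he : Function.Injective e)
    (hPr : FourPoints e) {d : ℤ}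
    (hbad : ¬ Pool.Agent.W623.SecG.Bad2.{0, 0} e d) : LiftableSectionsAreValuative e d := by
  classical
  intro F Ω M B _ _ _ _ _ _ _ _ _ _ _ _ _ _ x y hx halgx hxy ι s t hlift ht
  have hcl : IsAlgClosed Ω := IsAlgClosure.isAlgClosed F
  have halg : Algebra.IsAlgebraic F Ω := IsAlgClosure.isAlgebraic
  set G : GSection ℚ F Ω ∅ :=
    Pool.Agent.TH213.SEL.ofGal (AlgHom.id F Ω) Pool.Agent.TH213.SEL.id_range t with hG
  obtain ⟨i, hi⟩ : ∃ i, Pool.Agent.W623.SecG.At G x e i := by
    by_contra hno
    push Not at hno
    exact hbad ⟨F, Ω, inferInstance, inferInstance, inferInstance, inferInstance, inferInstance,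
      inferInstance, hcl, halg, ∅, G, x, y, fun O hO => absurd hO (Set.notMem_empty _), hx, hxy,
      hno⟩
  obtain ⟨l, hl, hli, hfin, M₀, hM₀, hSha⟩ := hPr i
  obtain ⟨O, hO, -⟩ := Pool.Agent.TH213.SEL.bir_quad he hl hli hfin hM₀ hSha t ht
    ⟨x, hx, halgx⟩ x (fun c hc => hx (by rw [hc]; exact isAlgebraic_algebraMap c)) (by
      intro m m' h1 h2
      obtain ⟨γ, h3, h4⟩ := hi m m' h1 h2
      refine ⟨γ, h3, ?_⟩
      rw [h4]
      try rfl)
  exact ⟨O, hlift.arises hO⟩

theorem result (K : Type) [Fintype K] (e : K → ℤ) (he : Function.Injective e)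
    (hev : Even (Fintype.card K)) (hK : 6 ≤ Fintype.card K) (hCR : CrossRatio e)
    (hE : FourPoints e) :
    ∃ C : ℝ, ∀ X : ℕ, 2 ≤ X →
      ({d : ℤ | d.natAbs ≤ X ∧ Squarefree d ∧ ¬ LiftableSectionsAreValuative e d}.ncard : ℝ) ≤
        C * X * (Real.log X) ^ (-(1 / 5) : ℝ) := by
  classical
  obtain ⟨C, hC⟩ := Pool.Agent.W262.G3.fin2.{0, 0} Pool.Agent.W623.SecG.secloc2
    Pool.Agent.W623.SecE.secglob K e he hev hK hCR
  refine ⟨C, fun X hX => le_trans ?_ (hC X hX)⟩
  have hfin : {d : ℤ | d.natAbs ≤ X ∧ Squarefree d ∧
      Pool.Agent.W623.SecG.Bad2.{0, 0} e d}.Finite := by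
    refine (Finset.finite_toSet (Finset.Icc (-(X : ℤ)) X)).subset ?_
    rintro d ⟨hd1, -⟩
    rw [Finset.mem_coe, Finset.mem_Icc]
    omega
  have hsub : {d : ℤ | d.natAbs ≤ X ∧ Squarefree d ∧ ¬ LiftableSectionsAreValuative e d} ⊆
      {d : ℤ | d.natAbs ≤ X ∧ Squarefree d ∧ Pool.Agent.W623.SecG.Bad2.{0, 0} e d} := by
    rintro d ⟨hd1, hd2, hd3⟩
    refine ⟨hd1, hd2, ?_⟩
    by_contra hbad
    exact hd3 (sections_valuative he hE hbad)
  exact_mod_cast Set.ncard_le_ncard hsub hfin

end Pool.Agent.Results.MP_896029_ag.LiftableSectionsOfTwists
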